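import Pool.Agent.Run7.h92.EH.Stm

/-! # Pieces EH_SGN and EH_BAS (helper67) -/

set_option autoImplicit false

namespace Pool.Agent.Run7.h67.EH

open Pool.Agent.Run7.h92.EH

theorem dsgn_zero {c : Fin 8 → Fin 8} (h : ¬ Function.Injective c) : dsgn c = 0 := by
  obtain ⟨i, j, hij, hne⟩ : ∃ i j, c i = c j ∧ i ≠ j := by
    by_contra h'
    push Not at h'
    exact h fun i j hij => h' i j hij
  wlog hlt : i < j generalizing i j
  · exact this j i hij.symm hne.symm (lt_of_le_of_ne (not_lt.1 hlt) hne.symm)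
  unfold dsgn
  refine Finset.prod_eq_zero (Finset.mem_univ i) ?_
  refine Finset.prod_eq_zero (Finset.mem_Ioi.2 hlt) ?_
  rw [hij]
  simp

theorem dsgn_perm (σ : Equiv.Perm (Fin 8)) : dsgn σ = (Equiv.Perm.sign σ : ℤ) := by
  rw [Equiv.Perm.sign_eq_prod_prod_Ioi]
  unfold dsgn
  push_cast
  refine Finset.prod_congr rfl fun i _ => Finset.prod_congr rfl fun j hj => ?_
  have hij : i < j := Finset.mem_Ioi.1 hj
  by_cases h : σ i < σ j
  · simp [h]
  · have h2 : σ j < σ i := lt_of_le_of_ne (not_lt.1 h) fun h3 =>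
      hij.ne' (σ.injective h3)
    simp [h, h2]

theorem t_SGN : S_SGN := by
  intro c
  have h1 : g (c 0) * g (c 1) * (g (c 2) * g (c 3)) * (g (c 4) * g (c 5) * g (c 6) * g (c 7)) =
      ExteriorAlgebra.ιMulti ℤ 8 fun i => (Pi.single (c i) (1 : ℤ) : V8) := by
    rw [ExteriorAlgebra.ιMulti_apply]
    simp only [g, List.ofFn_succ, List.ofFn_zero, List.prod_cons, List.prod_nil, mul_one,
      mul_assoc]
    rfl
  rw [h1]
  by_cases hc : Function.Injective c
  · let σ : Equiv.Perm (Fin 8) := Equiv.ofBijective c (Finite.injective_iff_bijective.1 hc)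
    have e : dsgn c = (Equiv.Perm.sign σ : ℤ) := dsgn_perm σ
    rw [e]
    have h2 := AlternatingMap.map_perm (ExteriorAlgebra.ιMulti ℤ 8)
      (fun i => (Pi.single i (1 : ℤ) : V8)) σ
    have h3 : (fun i => (Pi.single (c i) (1 : ℤ) : V8)) =
      (fun i => (Pi.single i (1 : ℤ) : V8)) ∘ σ := rfl
    rw [h3, h2]
    rfl
  · rw [dsgn_zero hc, zero_smul]
    obtain ⟨i, j, hij, hne⟩ : ∃ i j, c i = c j ∧ i ≠ j := by
      by_contra h'
      push Not at h'
      exact hc fun i j hij => h' i j hij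
    exact AlternatingMap.map_eq_zero_of_eq _ _ (by rw [hij]) hne

theorem lt_all : ∀ k, pa k < pb k := by decide +kernel

theorem surj_all : ∀ x y : Fin 8, x < y → ∃ k, pa k = x ∧ pb k = y := by decide +kernel

theorem inj_all : ∀ k l, pa k = pa l → pb k = pb l → k = l := by decide +kernel

/-- the order embedding of the pair -/
def em (k : Fin 28) : Fin 2 ↪o Fin 8 :=
  OrderEmbedding.ofStrictMono ![pa k, pb k] (by
    rw [Fin.strictMono_iff_lt_succ]
    intro i
    fin_cases i
    exact lt_all k)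

theorem em_bij : Function.Bijective em := by
  constructor
  · intro k l h
    have h0 := congrArg (fun f : Fin 2 ↪o Fin 8 => f 0) h
    have h1 := congrArg (fun f : Fin 2 ↪o Fin 8 => f 1) h
    exact inj_all k l h0 h1
  · intro s
    obtain ⟨k, h0, h1⟩ := surj_all (s 0) (s 1) (s.strictMono (by decide))
    refine ⟨k, ?_⟩
    ext i
    fin_cases i
    · exact congrArg Fin.val h0
    · exact congrArg Fin.val h1

theorem t_BAS : S_BAS := by
  let B := (Pi.basisFun ℤ (Fin 8)).exteriorPower 2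
  let E : Fin 28 ≃ Set.powersetCard (Fin 8) 2 :=
    (Equiv.ofBijective em em_bij).trans Set.powersetCard.ofFinEmbEquiv
  refine ⟨B.reindex E.symm, fun k => ?_⟩
  rw [Module.Basis.reindex_apply, Equiv.symm_symm]
  show ((B (E k) : ⋀[ℤ]^2 V8) : ExteriorAlgebra ℤ V8) = _
  rw [exteriorPower.basis_apply]
  unfold exteriorPower.ιMulti_family
  rw [exteriorPower.ιMulti_apply_coe, ExteriorAlgebra.ιMulti_apply]
  have hE : Set.powersetCard.ofFinEmbEquiv.symm (E k) = em k := by
    show Set.powersetCard.ofFinEmbEquiv.symm (Set.powersetCard.ofFinEmbEquiv (em k)) = em k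
    rw [Equiv.symm_apply_apply]
  simp only [Function.comp_def, hE, List.ofFn_succ, List.ofFn_zero, List.prod_cons, List.prod_nil,
    mul_one, Pi.basisFun_apply]
  rfl

end Pool.Agent.Run7.h67.EH
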